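import Pool.Agent.P.MP_e94e4b_nt.Main

namespace Pool.Agent.P.MP_e94e4b_nt.Old.AlmostPrimePair

open ArithmeticFunction (cardFactors)

/-- For every `N ≥ 1` there is `k` with `2 ≤ k ≤ 2 N` such that `N ^ 2 + k + 1` and
`(N + 1) ^ 2 - k` have together at most seven prime factors, and each of them at most five,
counted with multiplicity. -/
theorem result (N : ℕ) (hN : 1 ≤ N) :
    ∃ k : ℕ, 2 ≤ k ∧ k ≤ 2 * N ∧
      cardFactors (N ^ 2 + k + 1) + cardFactors ((N + 1) ^ 2 - k) ≤ 7 ∧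
      cardFactors (N ^ 2 + k + 1) ≤ 5 ∧ cardFactors ((N + 1) ^ 2 - k) ≤ 5 :=
  Pool.Agent.P.MP_e94e4b_nt.good hN

end Pool.Agent.P.MP_e94e4b_nt.Old.AlmostPrimePair
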