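import Pool.Agent.P.MP_e94e4b_nt.OA.All

/-! Tuples of almost primes with prescribed parity in every window around a square, over a finite
field of characteristic two. -/

namespace Pool.Agent.Results.MP_e94e4b_nt.OddAlmostPrimes

open Polynomial

theorem result (r u : ℕ) :
    ∃ (K m₀ : ℕ) (c₀ : ℝ), 0 < c₀ ∧
      ∀ (k : Type) [Field k] [Finite k] [CharP k 2] (m : ℕ) (N : k[X]) (t : Finset k[X])
        (σ : k[X] → ℤ), N.Monic → m₀ ≤ m → m ≤ 2 * N.natDegree → N.natDegree ≤ u * m →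
        t.card = r → (∀ c ∈ t, 4 * c.natDegree ≤ m) →
        (∀ P : k[X], Irreducible P → ∃ y : k[X], ∀ c ∈ t, ¬ P ∣ y + c ^ 2) →
        (∀ c ∈ t, σ c = 1 ∨ σ c = -1) →
        c₀ * (Nat.card k : ℝ) ^ m / (m : ℝ) ^ r ≤
          (Set.ncard {x : k[X] | x.degree < (m : ℕ) ∧ ∀ c ∈ t,
            UniqueFactorizationMonoid.moebius (N ^ 2 + x + c ^ 2) = σ c ∧
            ∀ P : k[X], Irreducible P → P ∣ N ^ 2 + x + c ^ 2 →
              (N ^ 2 + x + c ^ 2).natDegree ≤ K * P.natDegree} : ℝ) := by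
  obtain ⟨K, c0, m0, h0, h⟩ := Pool.Agent.P.MP_e94e4b_nt.OA.t_FIN r u
  refine ⟨K, m0, c0, h0, fun k _ _ _ m N t σ hN h1 h2 h3 h4 h5 h6 h7 => ?_⟩
  have := h k m N t σ h1 h2 h3 hN h4.le h5 h6 h7
  rw [← Set.ncard_coe_finset, Finset.coe_filter] at this
  simpa only [Pool.Agent.P.MP_8be758_nt.C2.mem_low, Pool.Agent.P.MP_e94e4b_nt.OA.Tg] using this

end Pool.Agent.Results.MP_e94e4b_nt.OddAlmostPrimes
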