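import Pool.Agent.P.MP_e94e4b_nt.PF.All

namespace Pool.Agent.Results.MP_e94e4b_nt.PrimeAlmostPrime

open ArithmeticFunction (cardFactors)

/-- For a positive proportion of all `N` there is `k` with `2 ≤ k ≤ 2 N` such that `N ^ 2 + k + 1`
is prime and `(N + 1) ^ 2 - k` has at most four prime factors, counted with multiplicity. -/
theorem result : ∃ c : ℝ, 0 < c ∧ ∃ Y0 : ℕ, ∀ Y : ℕ, Y0 ≤ Y →
    c * Y ≤ (Set.ncard {N : ℕ | 1 ≤ N ∧ N ≤ Y ∧ ∃ k : ℕ, 2 ≤ k ∧ k ≤ 2 * N ∧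
      (N ^ 2 + k + 1).Prime ∧ cardFactors ((N + 1) ^ 2 - k) ≤ 4} : ℝ) := by
  classical
  obtain ⟨c, hc, Y0, h⟩ := Pool.Agent.P.MP_e94e4b_nt.PF.all_FIN
  refine ⟨c, hc, Y0, fun Y hY => (h Y hY).trans_eq ?_⟩
  rw [← Set.ncard_coe_finset]
  congr 2
  ext N
  simp [Pool.Agent.P.MP_e94e4b_nt.PF.Good, and_assoc]

end Pool.Agent.Results.MP_e94e4b_nt.PrimeAlmostPrime
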