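import Pool.Agent.P.MP_e94e4b_nt.W.Sqf
import Pool.Agent.P.MP_8be758_nt.C2.TFORM
import Pool.Agent.P.MP_8be758_nt.C2.TPF
import Pool.Agent.P.MP_8be758_nt.C2.TINFY
import Pool.Agent.P.MP_8be758_nt.C2.TSPLIT
import Pool.Agent.P.MP_8be758_nt.C2.TLOC
import Pool.Agent.P.MP_8be758_nt.C2.TDLOC
import Pool.Agent.P.MP_8be758_nt.C2.TLAL
import Pool.Agent.P.MP_8be758_nt.C2.TINF
import Pool.Agent.P.MP_8be758_nt.C2.TCOMP
import Pool.Agent.P.MP_8be758_nt.C2.TVDC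
import Pool.Agent.P.MP_8be758_nt.C2.TTYP
import Pool.Agent.P.MP_8be758_nt.C2.TTB2
import Pool.Agent.P.MP_8be758_nt.C2.TTB3
import Pool.Agent.P.MP_8be758_nt.C2.TTB4
import Pool.Agent.P.MP_8be758_nt.C2.TROUGH

/-! Sign patterns of the Moebius function in every window around a square, over a finite field of
characteristic two. -/

namespace Pool.Agent.Results.MP_e94e4b_nt.WindowParity

open Polynomial

theorem result (k : Type) [Field k] [Finite k] [CharP k 2] (r : ℕ) (ε : ℝ) (hε : 0 < ε) :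
    ∃ m₀ : ℕ, ∀ (m : ℕ) (N : k[X]) (t : Finset k[X]) (σ : k[X] → ℤ),
      N.Monic → m₀ ≤ m → m ≤ 2 * N.natDegree → t.card ≤ r →
      (∀ c ∈ t, 2 * c.natDegree < m) → (∀ c ∈ t, σ c = 1 ∨ σ c = -1) →
      |(Set.ncard {x : k[X] | x.degree < (m : ℕ) ∧
            ∀ c ∈ t, UniqueFactorizationMonoid.moebius (N ^ 2 + x + c ^ 2) = σ c} : ℝ) /
          (Set.ncard {x : k[X] | x.degree < (m : ℕ) ∧
            ∀ c ∈ t, Squarefree (N ^ 2 + x + c ^ 2)} : ℝ) -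
        1 / 2 ^ t.card| ≤ ε := by
  open Pool.Agent.P.MP_8be758_nt.C2 Pool.Agent.P.MP_e94e4b_nt.W in
  obtain ⟨m0, h⟩ := pattern (k := k) r (fun ε hε => win (p_FORM p_PF p_INFY) (p_SPLIT p_LOC)
    (p_DLOC p_LAL) p_INF p_COMP p_LOC p_VDC (p_TYP p_TB2 (p_TB3 p_ROUGH) p_TB4) r hε) hε
  refine ⟨m0, fun m N t σ hN h1 h2 h3 h4 h5 => ?_⟩
  have := h m N t σ h1 h2 hN h3 h4 h5
  rw [← Set.ncard_coe_finset, ← Set.ncard_coe_finset, Finset.coe_filter, Finset.coe_filter] at this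
  simpa only [Pool.Agent.P.MP_8be758_nt.C2.mem_low] using this

end Pool.Agent.Results.MP_e94e4b_nt.WindowParity
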